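import Pool.Agent.H104.AKN.E8Lower
import Pool.Agent.H104.AKN.Data8

/-!
# The average kissing number in dimension eight is 240

Kuperberg and Schramm asked whether the average kissing number of packings of balls of different
radii exceeds the kissing number in the dimensions 4, 8 and 24. In dimension 8 it does not.

Proof idea: give an edge of the contact graph, seen from the ball `i` to the ball `j`, the weight
`w(s)` with `s = r_j / (r_i + r_j)`. The directions from the ball `i` to its neighbours satisfy
`<x, y> <= 1 - 2 s s'`, and `w` is chosen such that `w(s) + w(1 - s) >= 2` and such that a positive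
semidefinite kernel (a combination of Gegenbauer polynomials in `t` with coefficients depending on
`s, s'`) certifies that the weights around any ball add up to at most 240.
-/

namespace Pool.Agent.Results.MP_e6e291_co.KappaEight

open Pool.Agent.H104.AKN

lemma upper (P : Packing 8) : P.avg ≤ 240 := by
  have h := D8.cert.avg_le D8.ok0 D8.ok1 D8.blocks_ok D8.ok2 D8.dblocks_ok (by decide) P
  have e : ((D8.cert.Kn : ℕ) : ℝ) / ((D8.cert.Kd : ℕ) : ℝ) = 240 := by
    have h1 : D8.cert.Kn = 240 := rfl
    have h2 : D8.cert.Kd = 1 := rfl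
    rw [h1, h2]; norm_num
  rw [e] at h
  exact h

lemma upper' (X : Finset (EuclideanSpace ℝ (Fin 8))) (hX : IsKissing 8 X) : X.card ≤ 240 := by
  have h := D8.cert.kissing_le D8.ok0 D8.ok1 D8.blocks_ok D8.ok2 D8.dblocks_ok (by decide) X hX
  have e : ((D8.cert.Kn : ℕ) : ℝ) / ((D8.cert.Kd : ℕ) : ℝ) = 240 := by
    have h1 : D8.cert.Kn = 240 := rfl
    have h2 : D8.cert.Kd = 1 := rfl
    rw [h1, h2]; norm_num
  rw [e] at h
  exact_mod_cast h

lemma tau_eq : tau 8 = 240 := by
  unfold tau
  apply le_antisymm
  · apply csSup_le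
    · obtain ⟨X, hX, h⟩ := E8.exists_kissing
      exact ⟨240, X, hX, h⟩
    · rintro m ⟨X, hX, rfl⟩
      exact upper' X hX
  · apply le_csSup
    · refine ⟨240, ?_⟩
      rintro m ⟨X, hX, rfl⟩
      exact upper' X hX
    · obtain ⟨X, hX, h⟩ := E8.exists_kissing
      exact ⟨X, hX, h⟩

lemma kappa_eq : kappa 8 = 240 := by
  unfold kappa
  apply le_antisymm
  · apply csSup_le
    · obtain ⟨P, _⟩ := E8.lower_packing 3 le_rfl
      exact ⟨_, P, rfl⟩
    · rintro a ⟨P, rfl⟩
      exact upper P
  · apply E8.le_of_forall_lower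
    intro P
    apply le_csSup
    · refine ⟨240, ?_⟩
      rintro a ⟨P, rfl⟩
      exact upper P
    · exact ⟨P, rfl⟩

/-- In dimension 8 every packing of balls of varying radii has average kissing number at most
`τ(8)`, and `κ(8) = τ(8) = 240`. In particular it is not true that `κ(d) > τ(d)` for each of
`d = 4, 8, 24`. -/
theorem result :
    (∀ P : Packing 8, P.avg ≤ (tau 8 : ℝ)) ∧ kappa 8 = 240 ∧ tau 8 = 240 ∧
      ¬ ∀ d ∈ ({4, 8, 24} : Finset ℕ), (tau d : ℝ) < kappa d := by
  refine ⟨fun P => ?_, kappa_eq, tau_eq, fun h => ?_⟩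
  · rw [tau_eq]; exact_mod_cast upper P
  · have := h 8 (by decide)
    rw [tau_eq, kappa_eq] at this
    norm_num at this

end Pool.Agent.Results.MP_e6e291_co.KappaEight
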